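import Pool.Agent.helper73.ASU.Spec2
import Pool.Agent.helper85.MT.MLS

set_option autoImplicit false

/-!
# ASU, row LSP: the large sieve for one prime
-/

namespace Pool.Agent.ASU

open Finset Pool.Agent.helper3.FT

private theorem LSP_count (p : ℕ) [Fact p.Prime] (M : ℕ) (a : ZMod p) :
    (((Icc 1 M).filter fun m : ℕ => (m : ZMod p) = a).card : ℝ) ≤ (M : ℝ) / p + 1 := by
  have hp : 0 < p := (Fact.out : p.Prime).pos
  have h1 : ((Icc 1 M).filter fun m : ℕ => (m : ZMod p) = a).card ≤ (range (M / p + 1)).card := by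
    refine card_le_card_of_injOn (fun m => (m - 1) / p) ?_ ?_
    · intro m hm
      have hm' := mem_filter.1 (mem_coe.1 hm)
      have hm2 := mem_Icc.1 hm'.1
      simp only [coe_range, Set.mem_Iio]
      have : (m - 1) / p ≤ M / p := Nat.div_le_div_right (by omega)
      omega
    · intro m hm m' hm' h
      have a1 := mem_filter.1 (mem_coe.1 hm)
      have a2 := mem_filter.1 (mem_coe.1 hm')
      have b1 := mem_Icc.1 a1.1
      have b2 := mem_Icc.1 a2.1
      have h2 : (m : ZMod p) = (m' : ZMod p) := a1.2.trans a2.2.symm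
      have h3 : m ≡ m' [MOD p] := (ZMod.natCast_eq_natCast_iff _ _ _).1 h2
      have h4 : m - 1 ≡ m' - 1 [MOD p] := by
        have e1 : m = (m - 1) + 1 := by omega
        have e2 : m' = (m' - 1) + 1 := by omega
        rw [e1, e2] at h3
        exact Nat.ModEq.add_right_cancel' 1 h3
      have h5 : (m - 1) / p = (m' - 1) / p := h
      have h6 : (m - 1) % p = (m' - 1) % p := h4
      have h7 := Nat.div_add_mod (m - 1) p
      have h8 := Nat.div_add_mod (m' - 1) p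
      rw [h5, h6] at h7
      omega
  rw [card_range] at h1
  have h2 : ((M / p : ℕ) : ℝ) ≤ (M : ℝ) / p := Nat.cast_div_le
  calc (((Icc 1 M).filter fun m : ℕ => (m : ZMod p) = a).card : ℝ) ≤ ((M / p + 1 : ℕ) : ℝ) := by exact_mod_cast h1
    _ = ((M / p : ℕ) : ℝ) + 1 := by push_cast; ring
    _ ≤ (M : ℝ) / p + 1 := by linarith

/-- **LSP**. -/
theorem LSP : LSP_stmt := by
  intro p _ M c
  classical
  have hp : p.Prime := Fact.out
  let f : ZMod p → ℂ := fun a => ∑ m ∈ (Icc 1 M).filter (fun m : ℕ => (m : ZMod p) = a), c m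
  have h1 : ∀ χ : DirichletCharacter ℂ p, ∑ m ∈ Icc 1 M, c m * χ (m : ZMod p) = ∑ a : ZMod p, χ a * f a := by
    intro χ
    rw [← sum_fiberwise (s := Icc 1 M) (g := fun m : ℕ => (m : ZMod p))]
    refine sum_congr rfl fun a _ => ?_
    rw [mul_sum]
    refine sum_congr rfl fun m hm => ?_
    rw [(mem_filter.1 hm).2, mul_comm]
  simp_rw [h1]
  rw [Pool.Agent.helper85.MT.mul_parseval p f]
  have h2 : ∀ a : ZMod p, (if IsUnit a then ‖f a‖ ^ 2 else 0) ≤
      ((M : ℝ) / p + 1) * ∑ m ∈ (Icc 1 M).filter (fun m : ℕ => (m : ZMod p) = a), ‖c m‖ ^ 2 := by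
    intro a
    have h3 : ‖f a‖ ^ 2 ≤ ((M : ℝ) / p + 1) * ∑ m ∈ (Icc 1 M).filter (fun m : ℕ => (m : ZMod p) = a), ‖c m‖ ^ 2 := by
      have h4 : ‖f a‖ ≤ ∑ m ∈ (Icc 1 M).filter (fun m : ℕ => (m : ZMod p) = a), ‖c m‖ := norm_sum_le _ _
      have h5 : (∑ m ∈ (Icc 1 M).filter (fun m : ℕ => (m : ZMod p) = a), ‖c m‖) ^ 2 ≤
          (((Icc 1 M).filter fun m : ℕ => (m : ZMod p) = a).card : ℝ) *
            ∑ m ∈ (Icc 1 M).filter (fun m : ℕ => (m : ZMod p) = a), ‖c m‖ ^ 2 := sq_sum_le_card_mul_sum_sq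
      calc ‖f a‖ ^ 2 ≤ (∑ m ∈ (Icc 1 M).filter (fun m : ℕ => (m : ZMod p) = a), ‖c m‖) ^ 2 :=
            pow_le_pow_left₀ (norm_nonneg _) h4 2
        _ ≤ _ := h5
        _ ≤ _ := mul_le_mul_of_nonneg_right (LSP_count p M a) (sum_nonneg fun m _ => sq_nonneg _)
    split_ifs
    · exact h3
    · exact (sq_nonneg _).trans h3
  have h6 : (Nat.totient p : ℝ) * ((M : ℝ) / p + 1) ≤ (p : ℝ) + M := by
    rw [Nat.totient_prime hp]
    have hp0 : (0 : ℝ) < p := by exact_mod_cast hp.pos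
    have h7 : ((p - 1 : ℕ) : ℝ) ≤ p := by exact_mod_cast Nat.sub_le _ _
    calc ((p - 1 : ℕ) : ℝ) * ((M : ℝ) / p + 1) ≤ (p : ℝ) * ((M : ℝ) / p + 1) :=
          mul_le_mul_of_nonneg_right h7 (by positivity)
      _ = (p : ℝ) + M := by
          field_simp
          ring
  calc (Nat.totient p : ℝ) * ∑ a : ZMod p, (if IsUnit a then ‖f a‖ ^ 2 else 0)
      ≤ (Nat.totient p : ℝ) * ∑ a : ZMod p, ((M : ℝ) / p + 1) *
          ∑ m ∈ (Icc 1 M).filter (fun m : ℕ => (m : ZMod p) = a), ‖c m‖ ^ 2 :=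
        mul_le_mul_of_nonneg_left (sum_le_sum fun a _ => h2 a) (Nat.cast_nonneg _)
    _ = ((Nat.totient p : ℝ) * ((M : ℝ) / p + 1)) * ∑ m ∈ Icc 1 M, ‖c m‖ ^ 2 := by
        rw [← mul_sum, ← mul_assoc, sum_fiberwise]
    _ ≤ _ := mul_le_mul_of_nonneg_right h6 (sum_nonneg fun m _ => sq_nonneg _)

end Pool.Agent.ASU
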